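import Pool.Agent.W488.IW.Stm

/-! Project IW: derivatives of `eT` and `gT`. -/

set_option autoImplicit false

namespace Pool.Agent.W374.IW.HaHb

open MeasureTheory Set Filter Topology
open Pool.Agent.W488.IW

lemma bump_cont {κ : ℝ → ℝ} (h : Bump κ) : Continuous κ := by
  obtain ⟨L, hL⟩ := h.lip
  exact hL.continuous

lemma hasDerivAt_om1 {κ : ℝ → ℝ} (h : Bump κ) (t : ℝ) : HasDerivAt (om1 κ) (κ t) t :=
  intervalIntegral.integral_hasDerivAt_right ((bump_cont h).intervalIntegrable _ _)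
    ((bump_cont h).stronglyMeasurableAtFilter _ _) (bump_cont h).continuousAt

lemma om1_cont {κ : ℝ → ℝ} (h : Bump κ) : Continuous (om1 κ) :=
  continuous_iff_continuousAt.mpr fun t => (hasDerivAt_om1 h t).continuousAt

lemma hasDerivAt_om {κ : ℝ → ℝ} (h : Bump κ) (t : ℝ) : HasDerivAt (om κ) (om1 κ t) t :=
  intervalIntegral.integral_hasDerivAt_right ((om1_cont h).intervalIntegrable _ _)
    ((om1_cont h).stronglyMeasurableAtFilter _ _) (om1_cont h).continuousAt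

lemma XX_pos {ε : ℝ} (hε : 0 < ε) (a : ℂ) : 0 < XX ε a := by
  unfold XX
  have := norm_nonneg a
  positivity

/-- derivative of the regularised modulus -/
noncomputable def LL (ε : ℝ) (a : ℂ) : ℂ →L[ℝ] ℝ := (XX ε a)⁻¹ • innerSL ℝ a

lemma LL_apply (ε : ℝ) (a u : ℂ) : LL ε a u = (XX ε a)⁻¹ * (a.re * u.re + a.im * u.im) := by
  simp [LL, Complex.inner, Complex.mul_re]
  left; ring

lemma hasFDerivAt_XX {ε : ℝ} (hε : 0 < ε) (a : ℂ) : HasFDerivAt (XX ε) (LL ε a) a := by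
  have h1 : HasFDerivAt (fun a : ℂ => ‖a‖ ^ 2 + ε ^ 2) (2 • (innerSL ℝ a)) a :=
    (hasStrictFDerivAt_norm_sq a).hasFDerivAt.add_const _
  have h2 : ‖a‖ ^ 2 + ε ^ 2 ≠ 0 := by positivity
  have h3 := (Real.hasDerivAt_sqrt h2).comp_hasFDerivAt a h1
  refine h3.congr_fderiv ?_
  ext u
  simp only [smul_apply, LL, XX, smul_eq_mul, nsmul_eq_mul]
  have : 0 < Real.sqrt (‖a‖ ^ 2 + ε ^ 2) := Real.sqrt_pos.mpr (by positivity)
  field_simp
  push_cast
  ring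

lemma hX {ε : ℝ} (hε : 0 < ε) (F : ℂ × ℂ) :
    HasFDerivAt (fun F : ℂ × ℂ => XX ε F.1) ((LL ε F.1).comp (ContinuousLinearMap.fst ℝ ℂ ℂ)) F :=
  (hasFDerivAt_XX hε F.1).comp F hasFDerivAt_fst

lemma hY {ε : ℝ} (hε : 0 < ε) (F : ℂ × ℂ) :
    HasFDerivAt (fun F : ℂ × ℂ => XX ε F.2) ((LL ε F.2).comp (ContinuousLinearMap.snd ℝ ℂ ℂ)) F :=
  (hasFDerivAt_XX hε F.2).comp F hasFDerivAt_snd

/-- derivative of `eT` -/
lemma fderiv_eT {κ : ℝ → ℝ} (h : Bump κ) {ε : ℝ} (ϑ : ℝ) (hε : 0 < ε) (F U : ℂ × ℂ) :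
    fderiv ℝ (eT κ ε ϑ) F U =
      ((om1 κ (XX ε F.1 - XX ε F.2) + 2 * XX ε F.1 * κ (XX ε F.1 - XX ε F.2)) / XX ε F.1 ^ 2
        - 2 * EE κ (XX ε F.1) (XX ε F.2) / XX ε F.1 ^ 3) * LL ε F.1 U.1
      + (om1 κ (XX ε F.1 - XX ε F.2) - 2 * XX ε F.1 * κ (XX ε F.1 - XX ε F.2)) / XX ε F.1 ^ 2
        * LL ε F.2 U.2 := by
  have hx := hX hε F
  have hy := hY hε F
  have hv := hx.sub hy
  have h1 := (hasDerivAt_om1 h (XX ε F.1 - XX ε F.2)).comp_hasFDerivAt F hv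
  have h2 := (hasDerivAt_om h (XX ε F.1 - XX ε F.2)).comp_hasFDerivAt F hv
  have hp := XX_pos hε F.1
  have h3 := ((hasDerivAt_inv (pow_ne_zero 2 hp.ne')).comp_hasFDerivAt F (hx.pow 2))
  have h4 := ((((hx.const_mul 2).mul h1).sub h2).mul h3).add_const ϑ
  have h5 : HasFDerivAt (eT κ ε ϑ) _ F := h4
  rw [h5.fderiv]
  simp only [add_apply, sub_apply, smul_apply, ContinuousLinearMap.comp_apply, smul_eq_mul,
    ContinuousLinearMap.coe_fst', ContinuousLinearMap.coe_snd', Function.comp_apply, EE,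
    nsmul_eq_mul, Pi.sub_apply, Pi.mul_apply]
  field_simp
  push_cast
  ring

/-- derivative of `gT` -/
lemma fderiv_gT {κ : ℝ → ℝ} (h : Bump κ) {ε : ℝ} (ϑ : ℝ) (hε : 0 < ε) (F U : ℂ × ℂ) :
    fderiv ℝ (gT κ ε ϑ) F U =
      (-om1 κ (XX ε F.1 + XX ε F.2) + om1 κ (XX ε F.1 - XX ε F.2)
        + 2 * XX ε F.2 * κ (XX ε F.1 - XX ε F.2)) / XX ε F.2 ^ 2 * LL ε F.1 U.1
      + ((-om1 κ (XX ε F.1 + XX ε F.2) + om1 κ (XX ε F.1 - XX ε F.2)
        - 2 * XX ε F.2 * κ (XX ε F.1 - XX ε F.2)) / XX ε F.2 ^ 2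
        - 2 * GG κ (XX ε F.1) (XX ε F.2) / XX ε F.2 ^ 3) * LL ε F.2 U.2 := by
  have hx := hX hε F
  have hy := hY hε F
  have hv := hx.sub hy
  have hs := hx.add hy
  have h0 := (hasDerivAt_om h (XX ε F.1 + XX ε F.2)).comp_hasFDerivAt F hs
  have h1 := (hasDerivAt_om1 h (XX ε F.1 - XX ε F.2)).comp_hasFDerivAt F hv
  have h2 := (hasDerivAt_om h (XX ε F.1 - XX ε F.2)).comp_hasFDerivAt F hv
  have hp := XX_pos hε F.2
  have h3 := ((hasDerivAt_inv (pow_ne_zero 2 hp.ne')).comp_hasFDerivAt F (hy.pow 2))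
  have h4 := (((h0.neg.add ((hy.const_mul 2).mul h1)).add h2).mul h3).sub_const ϑ
  have h5 : HasFDerivAt (gT κ ε ϑ) _ F := h4
  rw [h5.fderiv]
  simp only [add_apply, sub_apply, smul_apply, neg_apply, ContinuousLinearMap.comp_apply,
    smul_eq_mul, ContinuousLinearMap.coe_fst', ContinuousLinearMap.coe_snd', Function.comp_apply,
    GG, nsmul_eq_mul, Pi.sub_apply, Pi.mul_apply, Pi.add_apply, Pi.neg_apply]
  field_simp
  push_cast
  ring

/-- IW-HA -/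
theorem mainA : S_HA := by
  intro κ hκ ε ϑ hε a b p q r
  have hx := XX_pos hε a
  have hy := XX_pos hε b
  unfold OMa
  rw [fderiv_eT hκ ϑ hε, fderiv_eT hκ ϑ hε]
  simp only [LL_apply]
  unfold OA eT tau xi
  simp only [Complex.sq_norm, Complex.normSq_apply, Complex.mul_re, Complex.mul_im,
    Complex.add_re, Complex.add_im, Complex.sub_re, Complex.sub_im, Complex.conj_re,
    Complex.conj_im, Complex.I_re, Complex.I_im]
  set X := XX ε a
  set Y := XX ε b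
  set w1 := om1 κ (X - Y)
  set k := κ (X - Y)
  set E := EE κ X Y
  field_simp
  ring

/-- IW-HB -/
theorem mainB : S_HB := by
  intro κ hκ ε ϑ hε a b p q r
  have hx := XX_pos hε a
  have hy := XX_pos hε b
  unfold OMb
  rw [fderiv_gT hκ ϑ hε, fderiv_gT hκ ϑ hε]
  simp only [LL_apply]
  unfold OB gT tau ze
  simp only [Complex.sq_norm, Complex.normSq_apply, Complex.mul_re, Complex.mul_im,
    Complex.add_re, Complex.add_im, Complex.sub_re, Complex.sub_im, Complex.conj_re,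
    Complex.conj_im, Complex.I_re, Complex.I_im]
  set X := XX ε a
  set Y := XX ε b
  set w1 := om1 κ (X - Y)
  set w2 := om1 κ (X + Y)
  set k := κ (X - Y)
  set G := GG κ X Y
  field_simp
  ring

end Pool.Agent.W374.IW.HaHb
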