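import Pool.Agent.W488.IW.Stm

/-! Project IW: the pointwise certificate. -/

set_option autoImplicit false

namespace Pool.Agent.W374.IW.Pc

open MeasureTheory Set Filter Topology
open Pool.Agent.W488.IW

lemma XX_pos (ε : ℝ) (hε : 0 < ε) (a : ℂ) : 0 < XX ε a := by
  unfold XX
  have := norm_nonneg a
  positivity

/-- IW-PC: the pointwise certificate. -/
theorem main (h1 : S_HDIV) (h2 : S_HA) (h3 : S_HB) (h4 : S_ROT) (h5 : S_ALG) (h6 : S_BND) :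
    S_PC := by
  intro κ hκ ϑ hϑ
  obtain ⟨K, hK1, hK⟩ := h6 κ hκ
  obtain ⟨δ, hδ, ε1, hε1, hA⟩ := h5 K ϑ hK1 hϑ
  refine ⟨δ, hδ, min ε1 (1 / 8), lt_min hε1 (by norm_num), ?_⟩
  intro ε hε hε' F p q r
  obtain ⟨a, b⟩ := F
  rw [h1 κ hκ ε ϑ hε, h2 κ hκ ε ϑ hε, h3 κ hκ ε ϑ hε]
  have hX := XX_pos ε hε a
  have hY := XX_pos ε hε b
  have hb := hK ε hε (lt_of_lt_of_le hε' (min_le_right _ _)) ‖a‖ ‖b‖ (norm_nonneg _)
    (norm_nonneg _) (XX ε a) (XX ε b) rfl rfl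
  have hP := hA ε hε (lt_of_lt_of_le hε' (min_le_left _ _)) _ _ _ _ _ _ _ _ hb
  obtain ⟨P, Q, R, P', Q', R', hPQ⟩ := h4 (XX ε a) (XX ε b) (rho κ (XX ε a) (XX ε b))
    (tau κ (XX ε a) (XX ε b)) (xi κ (XX ε a) (XX ε b)) (ze κ (XX ε a) (XX ε b))
    (EE κ (XX ε a) (XX ε b)) (GG κ (XX ε a) (XX ε b)) ϑ (2 + 4 * δ) a b p q r hX hY
  have hV : Vv ε (2 + 4 * δ) (a, b) p q r = ((2 + 4 * δ : ℝ) : ℂ) * q
      + (starRingEnd ℂ) a * b / ((XX ε a * XX ε b : ℝ) : ℂ) * p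
      + (starRingEnd ℂ) ((starRingEnd ℂ) a * b / ((XX ε a * XX ε b : ℝ) : ℂ)) * r := rfl
  rw [hV, hPQ]
  exact add_nonneg (hP P Q R).1 (hP P' Q' R').2

end Pool.Agent.W374.IW.Pc
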